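import Pool.Agent.Lib.MP_acafa7_al.F.IfaceG
import Pool.Agent.Lib.MP_acafa7_al.MS.H25.Grid

/-! Module GEOP: fillings for pairs of walks. -/

namespace MSG.F93

open Classical
open MSG.H25.Gr (isW_ne isW_cons isW_cat isW_reverse cat_assoc cat_last cat_single isW_single
  mem_cat)

theorem homN_of_cat (halg : HAlgStatement) {V : Type} {G : SimpleGraph V} {S : Set V} {x y : V}
    {l l' : List V} (hl : IsW G x y l) (hl' : IsW G x y l') (hS : ∀ v ∈ l, v ∈ S)
    (hS' : ∀ v ∈ l', v ∈ S) (h : HomN G S (cat l l'.reverse) [x]) : HomN G S l l' := by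
  obtain ⟨htr, -, hsy, -, -, -, -, hback, -, -, hcl, hcr⟩ :=
    halg V ℤ G S (fun _ _ _ => (0 : ℤ))
  have h1 := hback l'.reverse y x (isW_reverse hl') (fun z hz => hS' z (List.mem_reverse.1 hz))
  rw [List.reverse_reverse] at h1
  have hmem : ∀ z ∈ cat l'.reverse l', z ∈ S := by
    intro z hz
    rcases mem_cat hz with hz | hz
    · exact hS' z (List.mem_reverse.1 hz)
    · exact hS' z hz
  have h2 := (hsy _ _ _ hmem h1).2
  have h3 := hcl x y y [y] (cat l'.reverse l') l _ hl (isW_single y) h2
  rw [cat_last, ← cat_assoc (isW_reverse hl')] at h3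
  have h4 := hcr x x y (cat l l'.reverse) [x] l' _ (isW_cat hl (isW_reverse hl')) hl' h
  rw [cat_single hl'] at h4
  have h5 := htr _ _ _ _ _ h3 h4
  simpa [HomN] using h5

theorem geop_st (geo : GeoStatement) (halg : HAlgStatement) : GeoPStatement := by
  intro C₁
  obtain ⟨C, hC⟩ := geo C₁
  refine ⟨max C 1, ?_⟩
  intro V G hG hsc hQ x y l l' hl hl'
  have hCC : C ≤ max C 1 := le_max_left _ _
  have hC1 : 1 ≤ max C 1 := le_max_right _ _
  have hlne : 1 ≤ l.length := List.length_pos_iff.2 (isW_ne hl)
  have hlne' : 1 ≤ l'.length := List.length_pos_iff.2 (isW_ne hl')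
  have hw := isW_cat hl (isW_reverse hl')
  have hlen : (cat l l'.reverse).length + 1 = l.length + l'.length := by
    unfold cat
    rw [List.length_append, List.length_tail, List.length_reverse]
    omega
  have hinl : ∀ v ∈ l, v ∈ cat l l'.reverse := by
    intro v hv
    unfold cat
    exact List.mem_append_left _ hv
  have hinl' : ∀ v ∈ l', v ∈ cat l l'.reverse := by
    intro v hv
    have h1 : v ∈ l'.reverse := List.mem_reverse.2 hv
    obtain ⟨m, hm⟩ := isW_cons (isW_reverse hl')
    unfold cat
    rw [hm] at h1 ⊢
    rcases List.mem_cons.1 h1 with h1 | h1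
    · apply List.mem_append_left
      rw [h1]
      exact List.mem_of_getLast? hl.last
    · exact List.mem_append_right _ h1
  by_cases h3 : 3 ≤ (cat l l'.reverse).length
  · obtain ⟨S, hmem, hhom, hcard, hnear, hsep⟩ := hC V G hG hsc hQ x (cat l l'.reverse) hw h3
    have hle : (cat l l'.reverse).length ≤ l.length + l'.length := by omega
    refine ⟨S, ?_, ?_, ?_, ?_, ?_⟩
    · intro v hv
      rcases List.mem_append.1 hv with hv | hv
      · exact hmem v (hinl v hv)
      · exact hmem v (hinl' v hv)
    · exact homN_of_cat halg hl hl' (fun v hv => hmem v (hinl v hv))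
        (fun v hv => hmem v (hinl' v hv)) hhom
    · exact hcard.trans (Nat.mul_le_mul hCC (Nat.pow_le_pow_left hle 2))
    · intro q hq
      obtain ⟨v, hv, hd⟩ := hnear q hq
      refine ⟨v, ?_, hd.trans (Nat.mul_le_mul hCC hle)⟩
      rcases mem_cat hv with hv | hv
      · exact List.mem_append_left _ hv
      · exact List.mem_append_right _ (List.mem_reverse.1 hv)
    · intro s T hT hs
      exact (hsep s T hT hs).trans
        (Nat.mul_le_mul hCC (Nat.pow_le_pow_left (Nat.add_le_add_left hle s) 2))
  · -- both walks are the constant walk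
    have hone : l = [x] ∧ l' = [x] := by
      obtain ⟨m, hm⟩ := isW_cons hl
      obtain ⟨m', hm'⟩ := isW_cons hl'
      have hml : l.length = m.length + 1 := by rw [hm]; rfl
      have hml' : l'.length = m'.length + 1 := by rw [hm']; rfl
      have key : ∀ a b : List V, IsW G x y (x :: a) → IsW G x y (x :: b) → a = [] →
          b.length ≤ 1 → b = [] := by
        intro a b ha hb ha0 hb1
        cases b with
        | nil => rfl
        | cons c b' =>
          exfalso
          have hb0 : b' = [] := by
            rw [List.length_cons] at hb1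
            exact List.length_eq_zero_iff.1 (by omega)
          subst hb0
          subst ha0
          have h1 := ha.last
          have h2 := hb.last
          simp at h1 h2
          have h4 := hb.chain
          rw [List.isChain_cons_cons] at h4
          have h5 : x = c := by rw [h1, h2]
          rw [h5] at h4
          exact G.loopless.irrefl c h4.1
      rw [hm] at hl
      rw [hm'] at hl'
      have hsum : m.length + m'.length ≤ 1 := by omega
      rcases Nat.eq_zero_or_pos m.length with h0 | h0
      · have h1 : m = [] := List.length_eq_zero_iff.1 h0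
        have h2 := key m m' hl hl' h1 (by omega)
        rw [hm, hm', h1, h2]
        exact ⟨rfl, rfl⟩
      · have h1 : m' = [] := List.length_eq_zero_iff.1 (by omega)
        have h2 := key m' m hl' hl h1 (by omega)
        rw [hm, hm', h1, h2]
        exact ⟨rfl, rfl⟩
    obtain ⟨rfl, rfl⟩ := hone
    refine ⟨{x}, ?_, ?_, ?_, ?_, ?_⟩
    · intro v hv
      simpa using hv
    · exact HomA.refl _
    · rw [Finset.card_singleton]
      calc 1 ≤ max C 1 * 1 := by omega
        _ ≤ max C 1 * ([x].length + [x].length) ^ 2 := Nat.mul_le_mul_left _ (by simp)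
    · intro q hq
      rw [Finset.mem_singleton] at hq
      refine ⟨x, by simp, ?_⟩
      rw [hq, SimpleGraph.dist_self]
      exact Nat.zero_le _
    · intro s T hT _
      have h1 : T.card ≤ 1 := by
        have := Finset.card_le_card hT
        rwa [Finset.card_singleton] at this
      calc s ^ 2 * T.card ≤ s ^ 2 * 1 := Nat.mul_le_mul_left _ h1
        _ = 1 * s ^ 2 := by ring
        _ ≤ max C 1 * (s + ([x].length + [x].length)) ^ 2 :=
          Nat.mul_le_mul hC1 (Nat.pow_le_pow_left (Nat.le_add_right _ _) 2)

end MSG.F93
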